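import Pool.Agent.Run7.h215.TIL.DensBoth

set_option autoImplicit false

/-!
# MP_bfa556_co: tilings of the symmetric group by transpositions, a divisibility criterion
and the density of its consequences
-/

namespace Pool.Agent.Results.MP_bfa556_co.YoungCriterion

open Finset Equiv Pool.Agent.Run7.h215.TIL

theorem result :
    -- (1) if the transpositions tile, then `n (n - 1)` divides the product of the `μ a !`, for every
    -- composition `μ` of `n` for which the sum of the `min (μ a) (μ b)` over the ordered pairs of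
    -- different classes is smaller than the sum of the `μ a (μ a - 1)`
    (∀ (m : ℕ) (μ : Fin m → ℕ),
      (∑ a, ∑ b, if a ≠ b then min (μ a) (μ b) else 0) < ∑ a, μ a * (μ a - 1) →
      Tiles (TStar (∑ a, μ a)) → (∑ a, μ a) * ((∑ a, μ a) - 1) ∣ ∏ a, (μ a).factorial) ∧
    -- (2) the same for the transpositions and the identity
    (∀ (m : ℕ) (μ : Fin m → ℕ),
      (∑ a, ∑ b, if a ≠ b then min (μ a) (μ b) else 0) < (∑ a, μ a * (μ a - 1)) + 2 →
      Tiles (TOne (∑ a, μ a)) → (∑ a, μ a) * ((∑ a, μ a) - 1) / 2 + 1 ∣ ∏ a, (μ a).factorial) ∧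
    -- (3) no tiling by the transpositions if `n` or `n - 1` has a prime factor `p` with
    -- `n + 2 ≤ (p - 1) ^ 2`, or if `n` or `n - 1` is the square of an odd prime
    (∀ n p : ℕ, p.Prime → 2 ≤ n → p ∣ n * (n - 1) → n + 2 ≤ (p - 1) ^ 2 → ¬ Tiles (TStar n)) ∧
    (∀ p : ℕ, p.Prime → p ≠ 2 → ¬ Tiles (TStar (p ^ 2)) ∧ ¬ Tiles (TStar (p ^ 2 + 1))) ∧
    -- (4) no tiling by the transpositions and the identity if `1 + n (n - 1) / 2` has a prime factor
    -- `p` with `n ≤ (p - 1) ^ 2`, or a factor `p ^ 2` with `n < p ^ 2 + p`, `p ≥ 5` prime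
    (∀ n p : ℕ, p.Prime → p ∣ n * (n - 1) / 2 + 1 → n ≤ (p - 1) ^ 2 → ¬ Tiles (TOne n)) ∧
    (∀ n p : ℕ, p.Prime → 5 ≤ p → p ^ 2 ∣ n * (n - 1) / 2 + 1 → n < p ^ 2 + p →
      ¬ Tiles (TOne n)) ∧
    -- (5) small `n`
    (∀ n : ℕ, 4 ≤ n → n ≤ 125 → n ∉ ({16, 36, 64, 81, 99, 100} : Finset ℕ) →
      ¬ Tiles (TStar n)) ∧
    (∀ n : ℕ, 4 ≤ n → n ≤ 136 → n ≠ 91 → ¬ Tiles (TOne n)) ∧
    -- (6) lower densities: the `n` without a tiling by the transpositions have lower density at least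
    -- `log 2`, the `n` without a tiling by the transpositions and the identity at least `3 / 4`, the
    -- `n` with neither at least `log 2 - 1 / 4`
    (∀ ε : ℝ, 0 < ε → ∀ᶠ N : ℕ in Filter.atTop,
      (Real.log 2 - ε) * N ≤ ({n : ℕ | n ≤ N ∧ ¬ Tiles (TStar n)}.ncard : ℝ)) ∧
    (∀ ε : ℝ, 0 < ε → ∀ᶠ N : ℕ in Filter.atTop,
      (3 / 4 - ε) * N ≤ ({n : ℕ | n ≤ N ∧ ¬ Tiles (TOne n)}.ncard : ℝ)) ∧
    (∀ ε : ℝ, 0 < ε → ∀ᶠ N : ℕ in Filter.atTop,
      (Real.log 2 - 1 / 4 - ε) * N ≤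
        ({n : ℕ | n ≤ N ∧ ¬ Tiles (TStar n) ∧ ¬ Tiles (TOne n)}.ncard : ℝ)) := by
  refine ⟨crit_star, crit_one, fun n p hp h2 hd hle => prime_star n p hp h2 hd hle, squares,
    fun n p hp hd hle => prime_one n p hp hd hle, fun n p hp h5 hd hle => sq_one' n p hp h5 hd hle,
    ?_, small_one, dens_star, dens_one, dens_both⟩
  intro n h1 h2 h3
  simp only [Finset.mem_insert, Finset.mem_singleton, not_or] at h3
  exact small_star n h1 h2 h3.1 h3.2.1 h3.2.2.1 h3.2.2.2.1 h3.2.2.2.2.1 h3.2.2.2.2.2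

end Pool.Agent.Results.MP_bfa556_co.YoungCriterion
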